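import Pool.Agent.H84.KfB

/-! The least size of a set of reals `X` with `C_p(X)` not `κ`-Fréchet is `non(M)`. -/

namespace Pool.Agent.Results.MP_3edc48_gt.NonM

open Set Cardinal Topology Filter Pool.Agent.H84.Kf

theorem result : IsLeast {c | ∃ X : Set ℝ, #X = c ∧ ¬ KFrechet (Cp X)} nonM := by
  classical
  have low : ∀ X : Set ℝ, ¬ KFrechet (Cp X) → nonM ≤ #X := fun X hX => by
    by_contra hlt
    exact hX (kf_of fun F hF hd => by_contra fun hb => hlt (lower hF hd hb))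
  refine ⟨?_, by rintro _ ⟨X, rfl, hX⟩; exact low X hX⟩
  obtain ⟨Y, hYc, hY⟩ : nonM ∈ {c | ∃ Y : Set (ℕ → Bool), #Y = c ∧ ¬ IsMeagre Y} :=
    csInf_mem ⟨_, Set.univ, rfl, not_isMeagre_of_isOpen isOpen_univ univ_nonempty⟩
  obtain ⟨e, -, hec, hei⟩ := isClosed_univ.exists_nat_bool_injection_of_not_countable
    (α := ℝ) Set.not_countable_univ
  let P : ℕ → Set (ℕ → Bool) := fun n => range fun σ : Fin n → Bool =>
    fun i => if h : i < n then σ ⟨i, h⟩ else decide (i = n)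
  let X : Set ℝ := e '' (Y ∪ ⋃ n, P n)
  have hX : ¬ KFrechet (Cp X) := by
    intro hK
    obtain ⟨A, hA, V, hVo, hFV, hV⟩ := good_of hK (F := fun n => Subtype.val ⁻¹' (e '' P n))
      (fun n => ((finite_range _).image e).preimage Subtype.val_injective.injOn)
      (fun n => ⟨⟨e _, _, Or.inr (mem_iUnion.2 ⟨n, fun _ => true, rfl⟩), rfl⟩,
        _, ⟨fun _ => true, rfl⟩, rfl⟩) (by
      refine (pairwise_disjoint_on _).2 fun m n hmn => disjoint_left.2 ?_
      rintro x ⟨_, ⟨σ, rfl⟩, h1⟩ ⟨_, ⟨τ, rfl⟩, h2⟩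
      have := congrFun (hei (h1.trans h2.symm)) n
      simp [hmn.not_gt, hmn.ne'] at this)
    choose O hOo hOV using fun n => isOpen_induced_iff.1 (hVo n)
    have hD : ∀ m, (⋃ n ∈ {n | n ∈ A ∧ m < n}, e ⁻¹' O n) ∈ residual (ℕ → Bool) := by
      intro m
      refine residual_of_dense_open (isOpen_biUnion fun n _ => (hOo n).preimage hec)
        (dense_iff_inter_open.2 ?_)
      rintro N hN ⟨z, hz⟩
      obtain ⟨k, hk⟩ := cyl hN hz
      obtain ⟨n, hn, hn'⟩ := hA.exists_gt (m + k)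
      let z' : ℕ → Bool := fun i => if i < n then z i else decide (i = n)
      have hz' : z' ∈ P n := ⟨fun i => z i, funext fun i => by simp [z']⟩
      refine ⟨z', hk _ fun i hi => if_pos (by omega), mem_iUnion₂.2 ⟨n, ⟨hn, by omega⟩, ?_⟩⟩
      have := hFV n hn (show (⟨e z', _, Or.inr (mem_iUnion.2 ⟨n, hz'⟩), rfl⟩ : X) ∈ _ from
        ⟨z', hz', rfl⟩)
      rwa [← hOV] at this
    refine hY (mem_of_superset (countable_iInter_mem.2 hD) fun y hy hyY => ?_)
    obtain ⟨m, hm⟩ := (hV ⟨e y, y, Or.inl hyY, rfl⟩).bddAbove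
    obtain ⟨n, hn, hyn⟩ := mem_iUnion₂.1 (mem_iInter.1 hy m)
    exact (hm ⟨hn.1, by rw [← hOV]; exact hyn⟩).not_gt hn.2
  refine ⟨X, le_antisymm ?_ (low X hX), hX⟩
  have hYi : ℵ₀ ≤ #Y := by
    have : Y.Infinite := fun h => hY (fin_meagre h)
    exact infinite_iff.1 this.to_subtype
  have hP : #(⋃ n, P n) ≤ ℵ₀ :=
    le_aleph0_iff_set_countable.2 (countable_iUnion fun n => (finite_range _).countable)
  rw [← hYc]
  exact mk_image_le.trans ((mk_union_le _ _).trans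
    (add_le_of_le hYi le_rfl (hP.trans hYi)))

end Pool.Agent.Results.MP_3edc48_gt.NonM
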